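import Mathlib
import Pool.Agent.Gunport.Final
import Pool.Agent.Gunport.Total

namespace Pool.Agent.Results.MP_290120_co.SixteenByFourteen

/-- The cells of the `m × n` board. -/
def Board (m n : ℕ) : Finset (ℕ × ℕ) := Finset.range m ×ˢ Finset.range n

/-- Two cells share an edge. -/
def ShareEdge (p q : ℕ × ℕ) : Prop :=
  (p.1 = q.1 ∧ (p.2 + 1 = q.2 ∨ q.2 + 1 = p.2)) ∨
    (p.2 = q.2 ∧ (p.1 + 1 = q.1 ∨ q.1 + 1 = p.1))

/-- `d` consists of two cells of the board that share an edge. -/
def IsDomino (m n : ℕ) (d : Finset (ℕ × ℕ)) : Prop :=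
  ∃ p ∈ Board m n, ∃ q ∈ Board m n, ShareEdge p q ∧ d = {p, q}

/-- The cells of the board covered by no member of `S`. -/
def holes (m n : ℕ) (S : Finset (Finset (ℕ × ℕ))) : Finset (ℕ × ℕ) :=
  (Board m n).filter fun p => ∀ d ∈ S, p ∉ d

/-- `S` is a gunport configuration on the `m × n` board: pairwise disjoint dominoes on the board
such that no two uncovered cells share an edge. -/
structure IsGunport (m n : ℕ) (S : Finset (Finset (ℕ × ℕ))) : Prop where
  domino : ∀ d ∈ S, IsDomino m n d
  disjoint : ∀ d ∈ S, ∀ e ∈ S, d ≠ e → Disjoint d e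
  isolated : ∀ p ∈ holes m n S, ∀ q ∈ holes m n S, ¬ ShareEdge p q

/-- The maximum number of holes over all gunport configurations on the `m × n` board. -/
noncomputable def G (m n : ℕ) : ℕ :=
  sSup {k : ℕ | ∃ S, IsGunport m n S ∧ (holes m n S).card = k}

/-- The value that Pearce's formula gives for the `m × n` board. -/
def pearce (m n : ℕ) : ℕ := if m % 3 = n % 3 then (m * n - 4) / 3 else (m * n - 2) / 3

open Pool.Agent.Gunport

section
variable {S : Finset (Finset (ℕ × ℕ))}

theorem mate_ne (h : IsGunport 16 14 S) {p x : ℕ × ℕ}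
    (hx : ({p, x} : Finset (ℕ × ℕ)) ∈ S) : p ≠ x ∧ p ∈ Board 16 14 ∧ x ∈ Board 16 14 := by
  obtain ⟨a, ha, b, hb, hab, he⟩ := h.domino _ hx
  have hne : a ≠ b := by
    rintro rfl
    unfold ShareEdge at hab
    omega
  have ha' : a ∈ ({p, x} : Finset (ℕ × ℕ)) := by rw [he]; simp
  have hb' : b ∈ ({p, x} : Finset (ℕ × ℕ)) := by rw [he]; simp
  simp only [Finset.mem_insert, Finset.mem_singleton] at ha' hb'
  rcases ha' with rfl | rfl <;> rcases hb' with rfl | rfl
  · exact absurd rfl hne
  · exact ⟨hne, ha, hb⟩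
  · exact ⟨hne.symm, hb, ha⟩
  · exact absurd rfl hne

theorem mate_unique (h : IsGunport 16 14 S) {p x y : ℕ × ℕ}
    (hx : ({p, x} : Finset (ℕ × ℕ)) ∈ S) (hy : ({p, y} : Finset (ℕ × ℕ)) ∈ S) : x = y := by
  by_contra hxy
  have hne : ({p, x} : Finset (ℕ × ℕ)) ≠ {p, y} := by
    intro he
    have : x ∈ ({p, y} : Finset (ℕ × ℕ)) := by rw [← he]; simp
    simp only [Finset.mem_insert, Finset.mem_singleton] at this
    rcases this with h1 | h1
    · exact (mate_ne h hx).1 h1.symm
    · exact hxy h1
  have := h.disjoint _ hx _ hy hne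
  exact Finset.disjoint_left.1 this (show p ∈ ({p, x} : Finset (ℕ × ℕ)) by simp)
    (show p ∈ ({p, y} : Finset (ℕ × ℕ)) by simp)

/-- label of a cell -/
def L0 (S : Finset (Finset (ℕ × ℕ))) (i j : ℕ) : ℕ :=
  if ({(i, j), (i, j + 1)} : Finset (ℕ × ℕ)) ∈ S then 1
  else if 0 < j ∧ ({(i, j), (i, j - 1)} : Finset (ℕ × ℕ)) ∈ S then 2
  else if ({(i, j), (i + 1, j)} : Finset (ℕ × ℕ)) ∈ S then 3
  else if 0 < i ∧ ({(i, j), (i - 1, j)} : Finset (ℕ × ℕ)) ∈ S then 4
  else 0

theorem L0_lt (i j : ℕ) : L0 S i j < 5 := by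
  unfold L0; split_ifs <;> omega

theorem L0_one {i j : ℕ} : L0 S i j = 1 ↔ ({(i, j), (i, j + 1)} : Finset (ℕ × ℕ)) ∈ S := by
  unfold L0; split_ifs with h1 <;> simp [*]

theorem L0_two (h : IsGunport 16 14 S) {i j : ℕ} :
    L0 S i j = 2 ↔ 0 < j ∧ ({(i, j), (i, j - 1)} : Finset (ℕ × ℕ)) ∈ S := by
  unfold L0
  split_ifs with h1 h2 h3 h4
  · simp only [OfNat.one_ne_ofNat, false_iff]
    rintro ⟨_, h5⟩
    have := mate_unique h h1 h5
    simp at this
    omega
  · simp [h2]
  · simp only [Nat.reduceEqDiff, false_iff]; exact h2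
  · simp only [Nat.reduceEqDiff, false_iff]; exact h2
  · simp only [false_iff]; exact h2

theorem L0_three (h : IsGunport 16 14 S) {i j : ℕ} :
    L0 S i j = 3 ↔ ({(i, j), (i + 1, j)} : Finset (ℕ × ℕ)) ∈ S := by
  unfold L0
  split_ifs with h1 h2 h3 h4
  · simp only [OfNat.one_ne_ofNat, false_iff]
    intro h5
    have := mate_unique h h1 h5
    simp at this
  · simp only [Nat.reduceEqDiff, false_iff]
    intro h5
    have := mate_unique h h2.2 h5
    simp at this
  · simp [h3]
  · simp only [Nat.reduceEqDiff, false_iff]; exact h3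
  · simp only [false_iff]; exact h3

theorem L0_four (h : IsGunport 16 14 S) {i j : ℕ} :
    L0 S i j = 4 ↔ 0 < i ∧ ({(i, j), (i - 1, j)} : Finset (ℕ × ℕ)) ∈ S := by
  unfold L0
  split_ifs with h1 h2 h3 h4
  · simp only [OfNat.one_ne_ofNat, false_iff]
    rintro ⟨_, h5⟩
    have := mate_unique h h1 h5
    simp at this
  · simp only [Nat.reduceEqDiff, false_iff]
    rintro ⟨_, h5⟩
    have := mate_unique h h2.2 h5
    simp at this
    omega
  · simp only [Nat.reduceEqDiff, false_iff]
    rintro ⟨_, h5⟩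
    have := mate_unique h h3 h5
    simp at this
    omega
  · simp [h4]
  · simp only [false_iff]; exact h4

theorem L0_zero (h : IsGunport 16 14 S) {i j : ℕ} (hi : i < 16) (hj : j < 14) :
    L0 S i j = 0 ↔ (i, j) ∈ holes 16 14 S := by
  have hB : (i, j) ∈ Board 16 14 := by simp [Board, hi, hj]
  constructor
  · intro h0
    unfold holes
    rw [Finset.mem_filter]
    refine ⟨hB, ?_⟩
    intro d hd hp
    obtain ⟨a, ha, b, hb, hab, rfl⟩ := h.domino d hd
    unfold L0 at h0
    split_ifs at h0 with h1 h2 h3 h4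
    simp only [Finset.mem_insert, Finset.mem_singleton] at hp
    -- the other cell of the domino
    have key : ∀ x : ℕ × ℕ, ShareEdge (i, j) x → ({(i, j), x} : Finset (ℕ × ℕ)) ∈ S → False := by
      rintro ⟨x1, x2⟩ hx hm
      unfold ShareEdge at hx
      simp only at hx
      rcases hx with ⟨e1, e2 | e2⟩ | ⟨e1, e2 | e2⟩
      · subst e1; subst e2; exact h1 hm
      · subst e1
        apply h2
        refine ⟨by omega, ?_⟩
        rw [show j - 1 = x2 by omega]; exact hm
      · subst e1; subst e2; exact h3 hm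
      · subst e1
        apply h4
        refine ⟨by omega, ?_⟩
        rw [show i - 1 = x1 by omega]; exact hm
    rcases hp with rfl | rfl
    · exact key b hab hd
    · apply key a
      · unfold ShareEdge at hab ⊢
        omega
      · rw [Finset.pair_comm]; exact hd
  · intro hh
    unfold holes at hh
    rw [Finset.mem_filter] at hh
    unfold L0
    rw [if_neg, if_neg, if_neg, if_neg]
    · rintro ⟨_, h5⟩; exact hh.2 _ h5 (by simp)
    · intro h5; exact hh.2 _ h5 (by simp)
    · rintro ⟨_, h5⟩; exact hh.2 _ h5 (by simp)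
    · intro h5; exact hh.2 _ h5 (by simp)

/-- labels of the bordered board -/
def lab (S : Finset (Finset (ℕ × ℕ))) (i j : ℕ) : ℕ :=
  if 0 < i ∧ i < 17 ∧ 0 < j ∧ j < 15 then L0 S (i - 1) (j - 1) else 5

theorem okH_of {x y : ℕ} (h1 : x = 1 ↔ y = 2) (h2 : ¬ (x = 0 ∧ y = 0)) : okH x y = true := by
  unfold okH
  by_cases hx : x = 1
  · have hy := h1.1 hx
    subst hx; subst hy; rfl
  · have hy : y ≠ 2 := fun h => hx (h1.2 h)
    have e1 : (x == 1) = false := by simpa using hx
    have e2 : (y == 2) = false := by simpa using hy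
    rw [e1, e2]
    simp
    omega

theorem okV_of {x y : ℕ} (h1 : x = 3 ↔ y = 4) (h2 : ¬ (x = 0 ∧ y = 0)) : okV x y = true := by
  unfold okV
  by_cases hx : x = 3
  · have hy := h1.1 hx
    subst hx; subst hy; rfl
  · have hy : y ≠ 4 := fun h => hx (h1.2 h)
    have e1 : (x == 3) = false := by simpa using hx
    have e2 : (y == 4) = false := by simpa using hy
    rw [e1, e2]
    simp
    omega

theorem good (h : IsGunport 16 14 S) : Good (lab S) := by
  constructor
  · intro j; simp [lab]
  · intro j; simp [lab]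
  · intro i; simp [lab]
  · intro i; simp [lab]
  · intro i j hi hj
    unfold lab
    rw [if_pos (by omega)]
    exact L0_lt _ _
  · intro i j hi hj
    by_cases hin : 0 < i ∧ i < 17
    · obtain ⟨i', rfl⟩ : ∃ i', i = i' + 1 := ⟨i - 1, by omega⟩
      by_cases hj0 : j = 0
      · subst hj0
        have e1 : lab S (i' + 1) 0 = 5 := by simp [lab]
        have e2 : lab S (i' + 1) (0 + 1) = L0 S i' 0 := by
          unfold lab; rw [if_pos (by omega)]; rfl
        rw [e1, e2]
        apply okH_of
        · have : ¬ L0 S i' 0 = 2 := by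
            rw [L0_two h]; omega
          simp [this]
        · omega
      · by_cases hj14 : j = 14
        · subst hj14
          have e1 : lab S (i' + 1) 14 = L0 S i' 13 := by
            unfold lab; rw [if_pos (by omega)]; rfl
          have e2 : lab S (i' + 1) (14 + 1) = 5 := by simp [lab]
          rw [e1, e2]
          apply okH_of
          · have : ¬ L0 S i' 13 = 1 := by
              rw [L0_one]
              intro hm
              have := (mate_ne h hm).2.2
              simp [Board] at this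
            simp [this]
          · omega
        · obtain ⟨j', rfl⟩ : ∃ j', j = j' + 1 := ⟨j - 1, by omega⟩
          have e1 : lab S (i' + 1) (j' + 1) = L0 S i' j' := by
            unfold lab; rw [if_pos (by omega)]; rfl
          have e2 : lab S (i' + 1) (j' + 1 + 1) = L0 S i' (j' + 1) := by
            unfold lab; rw [if_pos (by omega)]; rfl
          rw [e1, e2]
          apply okH_of
          · rw [L0_one, L0_two h]
            rw [show j' + 1 - 1 = j' by omega, Finset.pair_comm]
            simp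
          · rintro ⟨z1, z2⟩
            rw [L0_zero h (by omega) (by omega)] at z1 z2
            exact h.isolated _ z1 _ z2 (Or.inl ⟨rfl, Or.inl rfl⟩)
    · have e1 : lab S i j = 5 := by unfold lab; rw [if_neg (by omega)]
      have e2 : lab S i (j + 1) = 5 := by unfold lab; rw [if_neg (by omega)]
      rw [e1, e2]; rfl
  · intro i j hi hj
    by_cases hin : 0 < j ∧ j < 15
    · obtain ⟨j', rfl⟩ : ∃ j', j = j' + 1 := ⟨j - 1, by omega⟩
      by_cases hi0 : i = 0
      · subst hi0
        have e1 : lab S 0 (j' + 1) = 5 := by simp [lab]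
        have e2 : lab S (0 + 1) (j' + 1) = L0 S 0 j' := by
          unfold lab; rw [if_pos (by omega)]; rfl
        rw [e1, e2]
        apply okV_of
        · have : ¬ L0 S 0 j' = 4 := by
            rw [L0_four h]; omega
          simp [this]
        · omega
      · by_cases hi16 : i = 16
        · subst hi16
          have e1 : lab S 16 (j' + 1) = L0 S 15 j' := by
            unfold lab; rw [if_pos (by omega)]; rfl
          have e2 : lab S (16 + 1) (j' + 1) = 5 := by simp [lab]
          rw [e1, e2]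
          apply okV_of
          · have : ¬ L0 S 15 j' = 3 := by
              rw [L0_three h]
              intro hm
              have := (mate_ne h hm).2.2
              simp [Board] at this
            simp [this]
          · omega
        · obtain ⟨i', rfl⟩ : ∃ i', i = i' + 1 := ⟨i - 1, by omega⟩
          have e1 : lab S (i' + 1) (j' + 1) = L0 S i' j' := by
            unfold lab; rw [if_pos (by omega)]; rfl
          have e2 : lab S (i' + 1 + 1) (j' + 1) = L0 S (i' + 1) j' := by
            unfold lab; rw [if_pos (by omega)]; rfl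
          rw [e1, e2]
          apply okV_of
          · rw [L0_three h, L0_four h]
            rw [show i' + 1 - 1 = i' by omega, Finset.pair_comm]
            simp
          · rintro ⟨z1, z2⟩
            rw [L0_zero h (by omega) (by omega)] at z1 z2
            exact h.isolated _ z1 _ z2 (Or.inr ⟨rfl, Or.inl rfl⟩)
    · have e1 : lab S i j = 5 := by unfold lab; rw [if_neg (by omega)]
      have e2 : lab S (i + 1) j = 5 := by unfold lab; rw [if_neg (by omega)]
      rw [e1, e2]; rfl

theorem card_holes (h : IsGunport 16 14 S) : ((holes 16 14 S).card : ℤ) =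
    ∑ i ∈ Finset.range 16, ∑ j ∈ Finset.range 14, (isH (lab S (i + 1) (j + 1)) : ℤ) := by
  have e : holes 16 14 S = (Board 16 14).filter (fun p => L0 S p.1 p.2 = 0) := by
    ext p
    constructor
    · intro hp
      have hB : p ∈ Board 16 14 := (Finset.mem_filter.1 hp).1
      have hB' := hB
      unfold Board at hB'
      rw [Finset.mem_product, Finset.mem_range, Finset.mem_range] at hB'
      rw [Finset.mem_filter]
      exact ⟨hB, (L0_zero h hB'.1 hB'.2).2 hp⟩
    · intro hp
      rw [Finset.mem_filter] at hp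
      have hB' := hp.1
      unfold Board at hB'
      rw [Finset.mem_product, Finset.mem_range, Finset.mem_range] at hB'
      exact (L0_zero h hB'.1 hB'.2).1 hp.2
  rw [e, Finset.card_filter]
  unfold Board
  push_cast
  rw [Finset.sum_product]
  apply Finset.sum_congr rfl
  intro i hi
  apply Finset.sum_congr rfl
  intro j hj
  have hi' := Finset.mem_range.1 hi
  have hj' := Finset.mem_range.1 hj
  have e1 : lab S (i + 1) (j + 1) = L0 S i j := by
    unfold lab; rw [if_pos (by omega)]; rfl
  rw [e1]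
  unfold isH
  split_ifs <;> simp

theorem holes_lt (h : IsGunport 16 14 S) : (holes 16 14 S).card < 74 := by
  have h1 := (good h).count
  rw [← card_holes h] at h1
  have h2 := no_good (good h)
  omega

/-- Board = holes plus two cells for each domino. -/
theorem card_board (h : IsGunport 16 14 S) : (holes 16 14 S).card + 2 * S.card = 224 := by
  have hdec : Board 16 14 = holes 16 14 S ∪ S.biUnion id := by
    ext p
    rw [Finset.mem_union, Finset.mem_biUnion]
    constructor
    · intro hp
      by_cases hc : ∀ d ∈ S, p ∉ d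
      · exact Or.inl (Finset.mem_filter.2 ⟨hp, hc⟩)
      · push Not at hc
        obtain ⟨d, hd, hpd⟩ := hc
        exact Or.inr ⟨d, hd, hpd⟩
    · rintro (hp | ⟨d, hd, hpd⟩)
      · exact (Finset.mem_filter.1 hp).1
      · obtain ⟨a, ha, b, hb, -, rfl⟩ := h.domino d hd
        simp only [id, Finset.mem_insert, Finset.mem_singleton] at hpd
        rcases hpd with rfl | rfl
        · exact ha
        · exact hb
  have hdis : Disjoint (holes 16 14 S) (S.biUnion id) := by
    rw [Finset.disjoint_left]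
    intro p hp hq
    obtain ⟨d, hd, hpd⟩ := Finset.mem_biUnion.1 hq
    exact (Finset.mem_filter.1 hp).2 d hd hpd
  have hbi : (S.biUnion id).card = 2 * S.card := by
    rw [Finset.card_biUnion]
    · rw [Finset.sum_congr rfl (g := fun _ => 2), Finset.sum_const, smul_eq_mul, mul_comm]
      intro d hd
      obtain ⟨a, ha, b, hb, hab, rfl⟩ := h.domino d hd
      have hne : a ≠ b := by
        rintro rfl
        unfold ShareEdge at hab
        omega
      exact Finset.card_pair hne
    · intro d hd e he hne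
      exact h.disjoint d hd e he hne
  have hc : (Board 16 14).card = 224 := by simp [Board]
  rw [← hc, hdec, Finset.card_union_of_disjoint hdis, hbi]

theorem holes_le (h : IsGunport 16 14 S) : (holes 16 14 S).card ≤ 72 := by
  have h1 := holes_lt h
  have h2 := card_board h
  omega

end

/-! ### A configuration with 72 holes -/

/-- The domino with upper left cell `(t.1, t.2.1)`, horizontal if `t.2.2 = 0`, else vertical. -/
def mk (t : ℕ × ℕ × ℕ) : Finset (ℕ × ℕ) :=
  if t.2.2 = 0 then {(t.1, t.2.1), (t.1, t.2.1 + 1)} else {(t.1, t.2.1), (t.1 + 1, t.2.1)}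

/-- 76 dominoes. -/
def L : List (ℕ × ℕ × ℕ) := [
  (0, 1, 0), (0, 4, 1), (0, 6, 1), (0, 8, 1), (0, 10, 1), (0, 12, 1), (1, 0, 1), (1, 2, 0),
  (1, 5, 1), (1, 7, 1), (1, 9, 1), (1, 11, 1), (1, 13, 1), (2, 1, 1), (2, 3, 1), (3, 2, 1),
  (3, 4, 1), (3, 6, 1), (3, 8, 1), (3, 10, 1), (3, 12, 1), (4, 0, 1), (4, 5, 1), (4, 7, 1),
  (4, 9, 1), (4, 11, 1), (4, 13, 1), (5, 1, 1), (5, 3, 1), (6, 2, 1), (6, 4, 1), (6, 6, 1),
  (6, 8, 1), (6, 10, 1), (6, 12, 1), (7, 0, 1), (7, 5, 1), (7, 7, 1), (7, 9, 1), (7, 11, 1),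
  (7, 13, 1), (8, 1, 1), (8, 3, 1), (9, 2, 1), (9, 4, 1), (9, 6, 1), (9, 8, 1), (9, 10, 1),
  (9, 12, 1), (10, 0, 1), (10, 5, 1), (10, 7, 1), (10, 9, 1), (10, 11, 1), (10, 13, 1),
  (11, 1, 1), (11, 3, 1), (12, 2, 1), (12, 4, 1), (12, 6, 1), (12, 8, 1), (12, 10, 1),
  (12, 12, 1), (13, 0, 1), (13, 5, 1), (13, 7, 1), (13, 9, 1), (13, 11, 1), (13, 13, 1),
  (14, 1, 1), (14, 2, 0), (15, 3, 0), (15, 6, 0), (15, 8, 0), (15, 10, 0), (15, 12, 0)]
/-- The configuration. -/
def S0 : Finset (Finset (ℕ × ℕ)) := (L.map mk).toFinset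

instance (p q : ℕ × ℕ) : Decidable (ShareEdge p q) := by unfold ShareEdge; infer_instance

theorem memS0 {d : Finset (ℕ × ℕ)} : d ∈ S0 ↔ ∃ t ∈ L, mk t = d := by simp [S0]

theorem a1 : ∀ t ∈ L, ∃ p ∈ Board 16 14, ∃ q ∈ Board 16 14, ShareEdge p q ∧ mk t = {p, q} := by
  have : ∀ t ∈ L, (t.2.2 = 0 ∧ t.1 < 16 ∧ t.2.1 < 13) ∨
      (t.2.2 ≠ 0 ∧ t.1 < 15 ∧ t.2.1 < 14) := by decide +kernel
  intro t ht
  rcases this t ht with ⟨h0, h1, h2⟩ | ⟨h0, h1, h2⟩
  · exact ⟨(t.1, t.2.1), by simp [Board]; omega, (t.1, t.2.1 + 1), by simp [Board]; omega,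
      by simp [ShareEdge], by simp [mk, h0]⟩
  · exact ⟨(t.1, t.2.1), by simp [Board]; omega, (t.1 + 1, t.2.1), by simp [Board]; omega,
      by simp [ShareEdge], by simp [mk, h0]⟩

theorem a2 : ∀ t ∈ L, ∀ u ∈ L, t = u ∨ Disjoint (mk t) (mk u) := by decide +kernel

theorem a3 : ∀ p ∈ (Board 16 14).filter (fun p => ∀ t ∈ L, p ∉ mk t),
    ∀ q ∈ (Board 16 14).filter (fun p => ∀ t ∈ L, p ∉ mk t), ¬ ShareEdge p q := by
  decide +kernel

theorem a4 : ((Board 16 14).filter (fun p => ∀ t ∈ L, p ∉ mk t)).card = 72 := by decide +kernel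

theorem holes_S0 : holes 16 14 S0 = (Board 16 14).filter (fun p => ∀ t ∈ L, p ∉ mk t) := by
  unfold holes
  apply Finset.filter_congr
  intro p _
  constructor
  · intro h t ht
    exact h _ (memS0.2 ⟨t, ht, rfl⟩)
  · intro h d hd
    obtain ⟨t, ht, rfl⟩ := memS0.1 hd
    exact h t ht

theorem gunport_S0 : IsGunport 16 14 S0 := by
  refine ⟨?_, ?_, ?_⟩
  · intro d hd
    obtain ⟨t, ht, rfl⟩ := memS0.1 hd
    exact a1 t ht
  · intro d hd e he hne
    obtain ⟨t, ht, rfl⟩ := memS0.1 hd
    obtain ⟨u, hu, rfl⟩ := memS0.1 he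
    rcases a2 t ht u hu with rfl | h
    · exact absurd rfl hne
    · exact h
  · rw [holes_S0]; exact a3

theorem G_eq : G 16 14 = 72 := by
  unfold G
  apply le_antisymm
  · apply csSup_le
    · exact ⟨72, S0, gunport_S0, by rw [holes_S0]; exact a4⟩
    · rintro k ⟨S, hS, rfl⟩
      exact holes_le hS
  · apply le_csSup
    · refine ⟨72, ?_⟩
      rintro k ⟨S, hS, rfl⟩
      exact holes_le hS
    · exact ⟨S0, gunport_S0, by rw [holes_S0]; exact a4⟩

/-- Neither `16` nor `14` is divisible by `3`, the largest number of holes on the `16 × 14` board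
is `72`, and Pearce's formula gives `74` there. -/
theorem result : ¬ (3 : ℕ) ∣ 16 ∧ ¬ (3 : ℕ) ∣ 14 ∧ G 16 14 = 72 ∧ pearce 16 14 = 74 :=
  ⟨by norm_num, by norm_num, G_eq, by norm_num [pearce]⟩

end Pool.Agent.Results.MP_290120_co.SixteenByFourteen
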